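import Pool.Agent.L0h45.NF.Bas

/-!
# Project NF (helper45), module DEN: denominators of the points
-/

set_option autoImplicit false

open NumberField Ideal

namespace Pool.Agent.L0h44.NF

open Pool.Agent.L0h45.NF

section ded

variable {R : Type*} [CommRing R] [IsDedekindDomain R]

theorem sup_pow' (I J : Ideal R) (k : ℕ) : (I ⊔ J) ^ k = I ^ k ⊔ J ^ k := by
  by_cases hg : I ⊔ J = ⊥
  · obtain ⟨h1, h2⟩ := sup_eq_bot_iff.1 hg
    subst h1
    subst h2
    simp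
  · obtain ⟨I', hI⟩ := Ideal.dvd_iff_le.2 (le_sup_left : I ≤ I ⊔ J)
    obtain ⟨J', hJ⟩ := Ideal.dvd_iff_le.2 (le_sup_right : J ≤ I ⊔ J)
    have h1 : (I ⊔ J) * (I' ⊔ J') = (I ⊔ J) * 1 := by
      rw [Ideal.mul_sup, ← hI, ← hJ, mul_one]
    have h2 : I' ⊔ J' = ⊤ := by
      rw [mul_left_cancel₀ hg h1, Ideal.one_eq_top]
    have h3 : I' ^ k ⊔ J' ^ k = ⊤ := Ideal.pow_sup_pow_eq_top h2
    calc (I ⊔ J) ^ k = (I ⊔ J) ^ k * (I' ^ k ⊔ J' ^ k) := by rw [h3, Ideal.mul_top]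
      _ = ((I ⊔ J) * I') ^ k ⊔ ((I ⊔ J) * J') ^ k := by rw [Ideal.mul_sup, mul_pow, mul_pow]
      _ = I ^ k ⊔ J ^ k := by rw [← hI, ← hJ]

theorem span_pair_pow (a b : R) (k : ℕ) : (span {a, b} : Ideal R) ^ k = span {a ^ k, b ^ k} := by
  rw [Ideal.span_insert, sup_pow', Ideal.span_singleton_pow, Ideal.span_singleton_pow,
    ← Ideal.span_insert]

theorem key (q p p' A B : R) (hq : q ≠ 0) (h : q * p' ^ 2 = p ^ 3 + A * p * q ^ 2 + B * q ^ 3) :
    (span {q, p} : Ideal R) ^ 3 = span {q} * span {q, p'} ^ 2 := by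
  have hqg : q ∈ (span {q, p} : Ideal R) := Ideal.subset_span (by simp)
  have hpg : p ∈ (span {q, p} : Ideal R) := Ideal.subset_span (by simp)
  have hg0 : (span {q, p} : Ideal R) ≠ ⊥ := by
    intro h0
    rw [h0] at hqg
    exact hq (by simpa using hqg)
  set g : Ideal R := span {q, p} with hg
  obtain ⟨Q, hQ⟩ : g ∣ span {q} := Ideal.dvd_iff_le.2 ((Ideal.span_singleton_le_iff_mem _).2 hqg)
  set H : Ideal R := span {q} * span {q, p'} ^ 2 with hH
  have hH1 : H = span {q ^ 3, q * p' ^ 2} := by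
    rw [hH, span_pair_pow, Ideal.span_mul_span]
    congr 1
    ext z
    simp
    constructor
    · rintro (h | h)
      · left; rw [← h]; ring
      · right; exact h.symm
    · rintro (h | h)
      · left; rw [h]; ring
      · right; exact h.symm
  have hHg : H ≤ g ^ 3 := by
    rw [hH1, Ideal.span_le]
    rintro z (rfl | hz)
    · exact Ideal.pow_mem_pow hqg 3
    · rw [Set.mem_singleton_iff] at hz
      rw [hz, h]
      have e1 : p ^ 3 ∈ g ^ 3 := Ideal.pow_mem_pow hpg 3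
      have e2 : q ^ 3 ∈ g ^ 3 := Ideal.pow_mem_pow hqg 3
      have e3 : p * q ^ 2 ∈ g ^ 3 := by
        have : p * q ^ 2 ∈ g * g ^ 2 := Ideal.mul_mem_mul hpg (Ideal.pow_mem_pow hqg 2)
        have e : g ^ 3 = g * g ^ 2 := by ring
        rw [e]; exact this
      refine Ideal.add_mem _ (Ideal.add_mem _ e1 ?_) (Ideal.mul_mem_left _ _ e2)
      rw [mul_assoc]
      exact Ideal.mul_mem_left _ _ e3
  obtain ⟨h', hh'⟩ := Ideal.dvd_iff_le.2 hHg
  have hg3 : g ^ 3 ≠ 0 := pow_ne_zero 3 hg0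
  have h1 : g ^ 3 ≤ g ^ 3 * (h' ⊔ Q ^ 2) := by
    rw [Ideal.mul_sup, ← hh']
    conv_lhs => rw [hg, span_pair_pow]
    rw [Ideal.span_le]
    have e1 : q ^ 3 ∈ H := by rw [hH1]; exact Ideal.subset_span (by simp)
    have e2 : q * p' ^ 2 ∈ H := by rw [hH1]; exact Ideal.subset_span (by simp)
    have e3 : p * q ^ 2 ∈ g ^ 3 * Q ^ 2 := by
      have : p * q ^ 2 ∈ g * (span {q}) ^ 2 :=
        Ideal.mul_mem_mul hpg (Ideal.pow_mem_pow (Ideal.mem_span_singleton_self q) 2)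
      have e : g ^ 3 * Q ^ 2 = g * (span {q}) ^ 2 := by rw [hQ]; ring
      rw [e]; exact this
    rintro z (rfl | hz)
    · exact Ideal.mem_sup_left e1
    · rw [Set.mem_singleton_iff] at hz
      have e4 : z = (q * p' ^ 2 - B * q ^ 3) + (-A) * (p * q ^ 2) := by rw [hz, h]; ring
      rw [e4]
      refine Ideal.add_mem _ (Ideal.mem_sup_left ?_) (Ideal.mem_sup_right (Ideal.mul_mem_left _ _ e3))
      exact Ideal.sub_mem _ e2 (Ideal.mul_mem_left _ _ e1)
  have h2 : h' ⊔ Q ^ 2 = ⊤ := by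
    have e : g ^ 3 * (h' ⊔ Q ^ 2) = g ^ 3 * 1 := by
      rw [mul_one]
      exact le_antisymm Ideal.mul_le_left h1
    rw [mul_left_cancel₀ hg3 e, Ideal.one_eq_top]
  have h3 : h' ∣ Q ^ 3 := by
    have e : g ^ 3 * h' ∣ g ^ 3 * Q ^ 3 := by
      rw [← hh', ← mul_pow, ← hQ, Ideal.span_singleton_pow, Ideal.dvd_iff_le, hH1]
      rw [Ideal.span_singleton_le_iff_mem]
      exact Ideal.subset_span (by simp)
    exact (mul_dvd_mul_iff_left hg3).1 e
  have h4 : IsCoprime h' (Q ^ 2) := Ideal.isCoprime_iff_sup_eq.2 h2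
  have h5 : IsCoprime h' (Q ^ 3) :=
    IsCoprime.pow_right ((IsCoprime.pow_right_iff (by norm_num : 0 < 2)).1 h4)
  have h6 : IsUnit h' := h5.isUnit_of_dvd' dvd_rfl h3
  have h7 : h' = 1 := by rwa [Ideal.isUnit_iff, ← Ideal.one_eq_top] at h6
  rw [hh', h7, mul_one]

theorem exT (q p p' A B : R) (hq : q ≠ 0) (h : q * p' ^ 2 = p ^ 3 + A * p * q ^ 2 + B * q ^ 3) :
    ∃ T : Ideal R, T ≠ ⊥ ∧ (span {q} : Ideal R) = span {q, p} * T ^ 2 ∧
      (span {q} : Ideal R) = span {q, p'} * T ^ 3 := by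
  have hk := key q p p' A B hq h
  have hqs : (span {q} : Ideal R) ≠ 0 := by
    rwa [Ne, Ideal.zero_eq_bot, Ideal.span_singleton_eq_bot]
  obtain ⟨Q, hQ⟩ : (span {q, p} : Ideal R) ∣ span {q} := Ideal.dvd_iff_le.2
    ((Ideal.span_singleton_le_iff_mem _).2 (Ideal.subset_span (by simp)))
  obtain ⟨Q3, hQ3⟩ : (span {q, p'} : Ideal R) ∣ span {q} := Ideal.dvd_iff_le.2
    ((Ideal.span_singleton_le_iff_mem _).2 (Ideal.subset_span (by simp)))
  set g : Ideal R := span {q, p} with hg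
  set g3 : Ideal R := span {q, p'} with hg3
  set qq : Ideal R := span {q} with hqq
  have hg0 : g ≠ 0 := fun h0 => hqs (by rw [hQ, h0, zero_mul])
  have hQ0 : Q ≠ 0 := fun h0 => hqs (by rw [hQ, h0, mul_zero])
  have hg30 : g3 ≠ 0 := fun h0 => hqs (by rw [hQ3, h0, zero_mul])
  have h1 : Q ^ 3 = Q3 ^ 2 := by
    have e : (g ^ 3 * g3 ^ 2) * Q ^ 3 = (g ^ 3 * g3 ^ 2) * Q3 ^ 2 := by
      calc (g ^ 3 * g3 ^ 2) * Q ^ 3 = (g * Q) ^ 3 * g3 ^ 2 := by ring
        _ = qq ^ 2 * (qq * g3 ^ 2) := by rw [← hQ]; ring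
        _ = (g3 * Q3) ^ 2 * g ^ 3 := by rw [← hQ3, ← hk]
        _ = (g ^ 3 * g3 ^ 2) * Q3 ^ 2 := by ring
    exact mul_left_cancel₀ (mul_ne_zero (pow_ne_zero _ hg0) (pow_ne_zero _ hg30)) e
  have h2 : Q ∣ Q3 := by
    have e : Q ^ 2 ∣ Q3 ^ 2 := by rw [← h1]; exact pow_dvd_pow _ (by norm_num)
    exact (UniqueFactorizationMonoid.pow_dvd_pow_iff_dvd (by norm_num)).1 e
  obtain ⟨T, hT⟩ := h2
  have h3 : T ^ 2 = Q := by
    have e : Q ^ 2 * T ^ 2 = Q ^ 2 * Q := by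
      rw [← mul_pow, ← hT, ← h1]; ring
    exact mul_left_cancel₀ (pow_ne_zero _ hQ0) e
  refine ⟨T, ?_, ?_, ?_⟩
  · rintro rfl
    apply hQ0
    rw [← h3]
    simp
  · rw [h3, ← hQ]
  · rw [hQ3, hT, ← h3]; ring

theorem den_aux {K : Type*} [Field K] [Algebra R K] [IsFractionRing R K] (m0 : R)
    (hrep : ∀ T : Ideal R, T ≠ ⊥ → ∃ (b : Ideal R) (t : R), t ≠ 0 ∧ m0 ∈ b ∧ T * b = span {t})
    (A B : R) (x y : K) (hxy : y ^ 2 = x ^ 3 + algebraMap R K A * x + algebraMap R K B) :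
    ∃ r s t u w : R, t ≠ 0 ∧ x * algebraMap R K t ^ 2 = algebraMap R K r ∧
      y * algebraMap R K t ^ 3 = algebraMap R K s ∧ u * r + w * t ^ 8 = m0 ^ 8 := by
  have hinj : Function.Injective (algebraMap R K) := IsFractionRing.injective R K
  obtain ⟨a, b, hb, hx⟩ := IsFractionRing.div_surjective (A := R) x
  obtain ⟨c, d, hd, hy⟩ := IsFractionRing.div_surjective (A := R) y
  have hb0 : b ≠ 0 := nonZeroDivisors.ne_zero hb
  have hd0 : d ≠ 0 := nonZeroDivisors.ne_zero hd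
  have hbF : algebraMap R K b ≠ 0 := by
    intro h0; exact hb0 (hinj (by rw [h0, map_zero]))
  have hdF : algebraMap R K d ≠ 0 := by
    intro h0; exact hd0 (hinj (by rw [h0, map_zero]))
  obtain ⟨p, hp⟩ : ∃ p : R, p = a * d := ⟨_, rfl⟩
  obtain ⟨p', hp'⟩ : ∃ p : R, p = c * b := ⟨_, rfl⟩
  obtain ⟨q, hq⟩ : ∃ p : R, p = b * d := ⟨_, rfl⟩
  have hq0 : q ≠ 0 := by rw [hq]; exact mul_ne_zero hb0 hd0
  have hqF : algebraMap R K q ≠ 0 := by
    intro h0; exact hq0 (hinj (by rw [h0, map_zero]))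
  have hx' : x * algebraMap R K q = algebraMap R K p := by
    rw [← hx, hp, hq, map_mul, map_mul]
    field_simp
  have hy' : y * algebraMap R K q = algebraMap R K p' := by
    rw [← hy, hp', hq, map_mul, map_mul]
    field_simp
  have hrel : q * p' ^ 2 = p ^ 3 + A * p * q ^ 2 + B * q ^ 3 := by
    apply hinj
    simp only [map_mul, map_add, map_pow]
    rw [← hx', ← hy']
    linear_combination (algebraMap R K q) ^ 3 * hxy
  obtain ⟨T, hT0, hT2, hT3⟩ := exT q p p' A B hq0 hrel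
  obtain ⟨β, t, ht0, hmb, hTt⟩ := hrep T hT0
  -- integrality
  have ht2 : t ^ 2 ∈ T ^ 2 := by
    have h1 : t ^ 2 ∈ (T * β) ^ 2 := by
      rw [hTt]; exact Ideal.pow_mem_pow (Ideal.mem_span_singleton_self t) 2
    rw [mul_pow] at h1
    exact Ideal.mul_le_left h1
  have ht3 : t ^ 3 ∈ T ^ 3 := by
    have h1 : t ^ 3 ∈ (T * β) ^ 3 := by
      rw [hTt]; exact Ideal.pow_mem_pow (Ideal.mem_span_singleton_self t) 3
    rw [mul_pow] at h1
    exact Ideal.mul_le_left h1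
  obtain ⟨r, hr⟩ : ∃ r, p * t ^ 2 = q * r := by
    have h1 : p * t ^ 2 ∈ span {q, p} * T ^ 2 :=
      Ideal.mul_mem_mul (Ideal.subset_span (by simp)) ht2
    rw [← hT2, Ideal.mem_span_singleton] at h1
    exact h1
  obtain ⟨s, hs⟩ : ∃ s, p' * t ^ 3 = q * s := by
    have h1 : p' * t ^ 3 ∈ span {q, p'} * T ^ 3 :=
      Ideal.mul_mem_mul (Ideal.subset_span (by simp)) ht3
    rw [← hT3, Ideal.mem_span_singleton] at h1
    exact h1
  have hr' : x * algebraMap R K t ^ 2 = algebraMap R K r := by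
    have h1 := congrArg (algebraMap R K) hr
    rw [map_mul, map_mul, map_pow, ← hx'] at h1
    apply mul_left_cancel₀ hqF
    linear_combination h1
  have hs' : y * algebraMap R K t ^ 3 = algebraMap R K s := by
    have h1 := congrArg (algebraMap R K) hs
    rw [map_mul, map_mul, map_pow, ← hy'] at h1
    apply mul_left_cancel₀ hqF
    linear_combination h1
  -- the ideal
  have hI : (span {r, t ^ 2} : Ideal R) = β ^ 2 := by
    have hqs : (span {q} : Ideal R) ≠ 0 := by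
      rwa [Ne, Ideal.zero_eq_bot, Ideal.span_singleton_eq_bot]
    apply mul_left_cancel₀ hqs
    have h1 : (span {q} : Ideal R) * span {r, t ^ 2} = span {q, p} * span {t ^ 2} := by
      rw [Ideal.span_insert r, Ideal.span_insert q, Ideal.mul_sup, Ideal.sup_mul,
        Ideal.span_singleton_mul_span_singleton, Ideal.span_singleton_mul_span_singleton,
        Ideal.span_singleton_mul_span_singleton, ← hr, sup_comm]
    rw [h1, ← Ideal.span_singleton_pow, ← hTt, mul_pow, ← mul_assoc, ← hT2]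
  have h8 : β ^ 8 ≤ span {r, t ^ 8} := by
    have e : β ^ 8 = (span {r, t ^ 2} : Ideal R) ^ 4 := by rw [hI]; ring
    rw [e, span_pair_pow, Ideal.span_le]
    rintro z (rfl | hz)
    · have h1 : r ^ 4 = r ^ 3 * r := by ring
      rw [h1]
      exact Ideal.mul_mem_left _ _ (Ideal.subset_span (by simp))
    · rw [Set.mem_singleton_iff] at hz
      rw [hz, ← pow_mul]
      exact Ideal.subset_span (by simp)
  have hm : m0 ^ 8 ∈ span {r, t ^ 8} := h8 (Ideal.pow_mem_pow hmb 8)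
  obtain ⟨u, w, huw⟩ := Ideal.mem_span_pair.1 hm
  exact ⟨r, s, t, u, w, ht0, hr', hs', huw⟩

end ded

/-- a finite set of ideals with which every ideal becomes principal, and a common multiple -/
theorem reps (F : Type) [Field F] [NumberField F] : ∃ m : ℕ, m ≠ 0 ∧ ∀ T : Ideal (𝓞 F), T ≠ ⊥ →
    ∃ (b : Ideal (𝓞 F)) (t : 𝓞 F), t ≠ 0 ∧ (m : 𝓞 F) ∈ b ∧ T * b = span {t} := by
  classical
  choose b hb using fun c : ClassGroup (𝓞 F) => ClassGroup.mk0_surjective c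
  refine ⟨∏ c, absNorm (b c : Ideal (𝓞 F)), ?_, fun T hT => ?_⟩
  · refine Finset.prod_ne_zero_iff.2 fun c _ => ?_
    rw [Ne, Ideal.absNorm_eq_zero_iff]
    exact nonZeroDivisors.coe_ne_zero (b c)
  · let T0 : nonZeroDivisors (Ideal (𝓞 F)) := ⟨T, mem_nonZeroDivisors_of_ne_zero hT⟩
    let c : ClassGroup (𝓞 F) := (ClassGroup.mk0 T0)⁻¹
    have h1 : ClassGroup.mk0 (T0 * b c) = 1 := by
      rw [map_mul, hb c]
      exact mul_inv_cancel _
    have h2 := (ClassGroup.mk0_eq_one_iff (T0 * b c).2).1 h1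
    obtain ⟨t, ht⟩ := h2.principal
    have ht' : T * (b c : Ideal (𝓞 F)) = span {t} := by
      rw [← Ideal.submodule_span_eq]
      exact ht
    refine ⟨b c, t, ?_, ?_, ht'⟩
    · rintro rfl
      have h3 : T * (b c : Ideal (𝓞 F)) = 0 := by
        rw [ht']; simp
      rcases mul_eq_zero.1 h3 with h4 | h4
      · exact hT h4
      · exact nonZeroDivisors.coe_ne_zero (b c) h4
    · have h3 : absNorm (b c : Ideal (𝓞 F)) ∣ ∏ c, absNorm (b c : Ideal (𝓞 F)) :=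
        Finset.dvd_prod_of_mem _ (Finset.mem_univ c)
      obtain ⟨k, hk⟩ := h3
      rw [hk]
      push_cast
      exact Ideal.mul_mem_right _ _ (Ideal.absNorm_mem _)

theorem den : S_DEN := by
  intro F _ _
  obtain ⟨m0, hm0, hrep⟩ := reps F
  refine ⟨m0 ^ 8, pow_ne_zero _ hm0, fun A B x y hxy => ?_⟩
  rw [RingOfIntegers.coe_eq_algebraMap, RingOfIntegers.coe_eq_algebraMap] at hxy
  obtain ⟨r, s, t, u, w, h1, h2, h3, h4⟩ := den_aux (K := F) (m0 : 𝓞 F) hrep A B x y hxy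
  refine ⟨r, s, t, u, w, h1, ?_, ?_, ?_⟩
  · rw [RingOfIntegers.coe_eq_algebraMap, RingOfIntegers.coe_eq_algebraMap]
    exact h2
  · rw [RingOfIntegers.coe_eq_algebraMap, RingOfIntegers.coe_eq_algebraMap]
    exact h3
  · rw [h4]
    push_cast
    rfl

end Pool.Agent.L0h44.NF
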