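import Pool.Agent.L0h45.NF.Bas

/-!
# Project NF (helper45), module FP: the integral quartic form of a point
-/

set_option autoImplicit false

open NumberField

namespace Pool.Agent.L0h44.NF

open Pool.Agent.L0h45.NF
open Pool.Agent.L0h45.AR (Q4)

section alg

variable {R : Type} [CommRing R]

theorem int_c (A B r s t u w m : R) (hs : s ^ 2 = r ^ 3 + A * r * t ^ 4 + B * t ^ 6)
    (hm : u * r + w * t ^ 8 = m) :
    (6 * m ^ 4 * t ^ 2 * (u ^ 2 * (A * r + B * t ^ 2) - r * w * t ^ 4 * (u * r + m))) * (m * t) ^ 2 =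
      6 * m ^ 6 * ((u * s) ^ 2 - m ^ 2 * r) := by
  subst hm
  linear_combination (-(6 * (u * r + w * t ^ 8) ^ 6 * u ^ 2)) * hs

theorem int_d (A B r s t u w m : R) (hs : s ^ 2 = r ^ 3 + A * r * t ^ 4 + B * t ^ 6)
    (hm : u * r + w * t ^ 8 = m) :
    (4 * m ^ 2 * s * (w ^ 2 * t ^ 12 * (u * r + 2 * m) + u ^ 3 * (A * r + B * t ^ 2))) *
      (m * t) ^ 4 = 4 * m ^ 6 * ((u * s) ^ 3 - 3 * (u * s) * (m ^ 2 * r) + 2 * (m ^ 3 * s)) := by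
  subst hm
  linear_combination (-(4 * (u * r + w * t ^ 8) ^ 6 * u ^ 3 * s)) * hs

theorem int_e (A B r s t u w m : R) (hs : s ^ 2 = r ^ 3 + A * r * t ^ 4 + B * t ^ 6)
    (hm : u * r + w * t ^ 8 = m) :
    (-(r ^ 2 * w ^ 3 * t ^ 18 * (u * r + 3 * m)) +
      2 * (A * r + B * t ^ 2) * u * w ^ 2 * t ^ 14 * (u * r + 2 * m) +
      4 * m ^ 3 * (-(A * w * t ^ 6) + B * u) + u ^ 4 * t ^ 2 * (A * r + B * t ^ 2) ^ 2) *
      (m * t) ^ 6 = m ^ 6 * ((u * s) ^ 4 - 6 * (u * s) ^ 2 * (m ^ 2 * r) +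
        8 * (u * s) * (m ^ 3 * s) - 3 * (m ^ 2 * r) ^ 2 - 4 * A * (m * t) ^ 4) := by
  subst hm
  linear_combination (-((u * r + w * t ^ 8) ^ 6 *
    (u ^ 4 * (s ^ 2 + (r ^ 3 + A * r * t ^ 4 + B * t ^ 6)) - 6 * u ^ 2 * (u * r + w * t ^ 8) ^ 2 * r +
      8 * u * (u * r + w * t ^ 8) ^ 3))) * hs

theorem inv_I [IsDomain R] (M k r s t A : R) (ht : t ≠ 0)
    (G : Q4 R) (ha : G.a = M * t ^ 2) (hb : G.b = 4 * M * k)
    (hc : G.c * t ^ 2 = 6 * M * (k ^ 2 - r))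
    (hd : G.d * t ^ 4 = 4 * M * (k ^ 3 - 3 * k * r + 2 * s))
    (he : G.e * t ^ 6 = M * (k ^ 4 - 6 * k ^ 2 * r + 8 * k * s - 3 * r ^ 2 - 4 * A * t ^ 4)) :
    G.I = -48 * M ^ 2 * A := by
  apply mul_left_cancel₀ (pow_ne_zero 4 ht)
  rw [Q4.I, ha, hb]
  linear_combination 12 * M * he - 12 * M * k * hd + (G.c * t ^ 2 + 6 * M * (k ^ 2 - r)) * hc

theorem inv_J [IsDomain R] (M k r s t A B : R) (ht : t ≠ 0)
    (h : s ^ 2 = r ^ 3 + A * r * t ^ 4 + B * t ^ 6)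
    (G : Q4 R) (ha : G.a = M * t ^ 2) (hb : G.b = 4 * M * k)
    (hc : G.c * t ^ 2 = 6 * M * (k ^ 2 - r))
    (hd : G.d * t ^ 4 = 4 * M * (k ^ 3 - 3 * k * r + 2 * s))
    (he : G.e * t ^ 6 = M * (k ^ 4 - 6 * k ^ 2 * r + 8 * k * s - 3 * r ^ 2 - 4 * A * t ^ 4)) :
    G.J = -1728 * M ^ 3 * B := by
  apply mul_left_cancel₀ (pow_ne_zero 6 ht)
  have h1 : t ^ 6 * G.J = 72 * M * (G.c * t ^ 2) * (G.e * t ^ 6) +
      36 * M * k * (G.c * t ^ 2) * (G.d * t ^ 4) - 27 * M * (G.d * t ^ 4) ^ 2 -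
      432 * M ^ 2 * k ^ 2 * (G.e * t ^ 6) - 2 * (G.c * t ^ 2) ^ 3 := by
    rw [Q4.J, ha, hb]
    ring
  rw [h1, hc, hd, he]
  linear_combination (-1728 * M ^ 3) * h

end alg

theorem fp (hden : S_DEN) : S_FP := by
  intro F _ _
  obtain ⟨m, hm0, hden⟩ := hden F
  refine ⟨m ^ 6, pow_ne_zero _ hm0, fun A B x y hxy => ?_⟩
  obtain ⟨r, s, t, u, w, ht0, hr, hs, huw⟩ := hden A B x y hxy
  have hinj : Function.Injective (algebraMap (𝓞 F) F) := IsFractionRing.injective (𝓞 F) F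
  simp only [RingOfIntegers.coe_eq_algebraMap] at hr hs hxy ⊢
  have hmR : (m : 𝓞 F) ≠ 0 := Nat.cast_ne_zero.2 hm0
  have hmF : (m : F) ≠ 0 := Nat.cast_ne_zero.2 hm0
  have htF : algebraMap (𝓞 F) F t ≠ 0 := by
    intro h0; exact ht0 (hinj (by rw [h0, map_zero]))
  have hrel : s ^ 2 = r ^ 3 + A * r * t ^ 4 + B * t ^ 6 := by
    apply hinj
    simp only [map_mul, map_add, map_pow]
    rw [← hr, ← hs]
    linear_combination (algebraMap (𝓞 F) F t) ^ 6 * hxy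
  have hrel' : ((m : 𝓞 F) ^ 3 * s) ^ 2 =
      ((m : 𝓞 F) ^ 2 * r) ^ 3 + A * ((m : 𝓞 F) ^ 2 * r) * (m * t) ^ 4 + B * (m * t) ^ 6 := by
    linear_combination (m : 𝓞 F) ^ 6 * hrel
  have hmt : (m : 𝓞 F) * t ≠ 0 := mul_ne_zero hmR ht0
  obtain ⟨G, hGdef⟩ : ∃ G : Q4 (𝓞 F), G = ⟨(m : 𝓞 F) ^ 6 * (m * t) ^ 2, 4 * (m : 𝓞 F) ^ 6 * (u * s),
    6 * (m : 𝓞 F) ^ 4 * t ^ 2 * (u ^ 2 * (A * r + B * t ^ 2) - r * w * t ^ 4 * (u * r + m)),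
    4 * (m : 𝓞 F) ^ 2 * s * (w ^ 2 * t ^ 12 * (u * r + 2 * m) + u ^ 3 * (A * r + B * t ^ 2)),
    -(r ^ 2 * w ^ 3 * t ^ 18 * (u * r + 3 * m)) +
      2 * (A * r + B * t ^ 2) * u * w ^ 2 * t ^ 14 * (u * r + 2 * m) +
      4 * (m : 𝓞 F) ^ 3 * (-(A * w * t ^ 6) + B * u) + u ^ 4 * t ^ 2 * (A * r + B * t ^ 2) ^ 2⟩ :=
    ⟨_, rfl⟩
  have ha : G.a = (m : 𝓞 F) ^ 6 * (m * t) ^ 2 := by rw [hGdef]
  have hb : G.b = 4 * (m : 𝓞 F) ^ 6 * (u * s) := by rw [hGdef]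
  have hc : G.c * (m * t) ^ 2 = 6 * (m : 𝓞 F) ^ 6 * ((u * s) ^ 2 - m ^ 2 * r) := by
    rw [hGdef]
    exact int_c A B r s t u w (m : 𝓞 F) hrel huw
  have hd : G.d * (m * t) ^ 4 =
      4 * (m : 𝓞 F) ^ 6 * ((u * s) ^ 3 - 3 * (u * s) * (m ^ 2 * r) + 2 * (m ^ 3 * s)) := by
    rw [hGdef]
    exact int_d A B r s t u w (m : 𝓞 F) hrel huw
  have he : G.e * (m * t) ^ 6 = (m : 𝓞 F) ^ 6 * ((u * s) ^ 4 - 6 * (u * s) ^ 2 * (m ^ 2 * r) +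
        8 * (u * s) * (m ^ 3 * s) - 3 * (m ^ 2 * r) ^ 2 - 4 * A * (m * t) ^ 4) := by
    rw [hGdef]
    exact int_e A B r s t u w (m : 𝓞 F) hrel huw
  have hM : (((m ^ 6 : ℕ) : 𝓞 F)) = (m : 𝓞 F) ^ 6 := by push_cast; rfl
  have hMF : (((m ^ 6 : ℕ) : F)) = (m : F) ^ 6 := by push_cast; rfl
  clear hGdef
  refine ⟨G, 4 * (m : F) ^ 6 * (m * algebraMap (𝓞 F) F t), ?_, ?_, ?_, ?_⟩
  · exact mul_ne_zero (mul_ne_zero (by norm_num) (pow_ne_zero _ hmF)) (mul_ne_zero hmF htF)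
  · rw [hM]
    exact inv_I _ _ _ _ _ A hmt G ha hb hc hd he
  · rw [hM]
    exact inv_J _ _ _ _ _ A B hmt hrel' G ha hb hc hd he
  · have ha' : algebraMap (𝓞 F) F G.a = (m : F) ^ 6 * (m * algebraMap (𝓞 F) F t) ^ 2 := by
      rw [ha]
      simp only [map_mul, map_pow, map_natCast]
    have hb' : algebraMap (𝓞 F) F G.b =
        4 * (m : F) ^ 6 * (algebraMap (𝓞 F) F u * algebraMap (𝓞 F) F s) := by
      rw [hb]
      simp only [map_mul, map_pow, map_natCast, map_ofNat]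
    have hc' : algebraMap (𝓞 F) F G.c * (m * algebraMap (𝓞 F) F t) ^ 2 =
        6 * (m : F) ^ 6 * ((algebraMap (𝓞 F) F u * algebraMap (𝓞 F) F s) ^ 2 -
          m ^ 2 * algebraMap (𝓞 F) F r) := by
      have h1 := congrArg (algebraMap (𝓞 F) F) hc
      simp only [map_mul, map_pow, map_natCast, map_ofNat, map_sub] at h1
      exact h1
    have e1 : (toF G).b ^ 2 - 8 / 3 * ((toF G).a * (toF G).c) =
        (4 * (m : F) ^ 6 * (m * algebraMap (𝓞 F) F t)) ^ 2 * x := by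
      change (algebraMap (𝓞 F) F G.b) ^ 2 -
        8 / 3 * (algebraMap (𝓞 F) F G.a * algebraMap (𝓞 F) F G.c) = _
      rw [ha', hb']
      linear_combination (-(8 / 3) * (m : F) ^ 6) * hc' - 16 * (m : F) ^ 12 * (m : F) ^ 2 * hr
    have e2 : 16 * ((m ^ 6 : ℕ) : F) * (toF G).a =
        (4 * (m : F) ^ 6 * (m * algebraMap (𝓞 F) F t)) ^ 2 := by
      change 16 * ((m ^ 6 : ℕ) : F) * (algebraMap (𝓞 F) F G.a) = _
      rw [ha', hMF]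
      ring
    rw [zz, e1, e2, map_mul]
    ring

end Pool.Agent.L0h44.NF
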